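import Pool.Agent.Helper35_MVD.ECom

/-!
# Squad MVD, row EFA (helper35)
-/

namespace Pool.Agent.MVD.H35

open Pool.Agent.Helper14_MV Pool.Agent.Helper2_MV Pool.Agent.MVD

theorem last_v {u v α' : List ℕ} {y : ℕ} (h : u ++ v = y :: (α' ++ [y])) (hv : v ≠ []) :
    ∃ v', v = v' ++ [y] ∧ u ++ v' = y :: α' := by
  rcases List.eq_nil_or_concat v with h1 | ⟨v', z, h1⟩
  · exact absurd h1 hv
  · rw [List.concat_eq_append] at h1
    rw [h1, ← List.append_assoc, ← List.cons_append] at h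
    have h2 := List.append_inj' h rfl
    rw [List.cons.injEq] at h2
    exact ⟨v', by rw [h1, h2.2.1], h2.1⟩

theorem efa (hSHA : ShaStmt) (hXVB : XvbStmt) (hRGA : RgaStmt) (hRGD : RgdStmt)
    (hERD : ErdStmt) (hEIS : EisStmt) (hIRL : IrlStmt) (hCTG : CtgStmt) : EfaStmt := by
  intro β n x y s1 s2 P1 P2 P3 Q α hE B e hB he hr
  obtain ⟨α', u, v, hperm, hproj, huv, hu, hv, huv', hrr⟩ :=
    common hSHA hXVB hRGA hRGD hERD hIRL hCTG hE (Or.inl rfl) hB he hr
  by_contra hla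
  have hyv : y ∉ v := by
    intro h
    obtain ⟨a, b, hab⟩ := List.append_of_mem h
    refine hla ⟨u ++ x :: a, b, by rw [huv, hab]; simp, fun h => hv ?_⟩
    rw [hab]
    exact List.mem_append_right _ (List.mem_cons_of_mem _ h)
  have hv0 : v = [] := by
    by_contra h
    obtain ⟨v', h1, -⟩ := last_v huv' h
    apply hyv
    rw [h1]
    simp
  rw [hv0, List.append_nil] at huv'
  rw [hv0, huv'] at hrr
  have h1 := hEIS β x s1 s2 P1 P2 P3 Q α α' [y] [y, x] hE.nd hE.can.sf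
    (fun c hc => hE.can.sf c (hperm.mem_iff.1 hc)) hproj
  apply hE.nr
  have e1 : (y :: (α' ++ [y])) ++ [x] = [y] ++ (α' ++ [y, x]) := by simp
  rw [e1] at hrr
  exact β.trans hrr (RR.symm h1)

end Pool.Agent.MVD.H35
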