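import Pool.Agent.Helper35_MVD.EFA

/-!
# Squad MVD, row EFB (helper35)
-/

namespace Pool.Agent.MVD.H35

open Pool.Agent.Helper14_MV Pool.Agent.Helper2_MV Pool.Agent.MVD

/-- the parts around the main block -/
theorem ew_form {P1 P2 P3 Q : List ℕ} {x s1 s2 : ℕ}
    (hnd : ((P1 ++ s1 :: (P2 ++ s2 :: P3)) ++ Q).Nodup) :
    ∃ pr po : List ℕ, (∀ K, EW x s1 s2 P1 P2 P3 Q K = pr ++ (K ++ po)) ∧ 2 ≤ pr.count x ∧
      (∀ i ∈ P1 ++ (P2 ++ P3), 3 * i + 1 ∈ pr) ∧ ∀ i ∈ Q, 3 * i + 1 ∈ po := by
  have hnd2 := (pl_perm P1 P2 P3 Q s1 s2).nodup_iff.1 hnd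
  rw [List.nodup_cons, List.nodup_cons, List.mem_cons, not_or] at hnd2
  obtain ⟨⟨h12, hs1⟩, hs2, hnd3⟩ := hnd2
  obtain ⟨R', hR'⟩ : ∃ R', R' = (P1 ++ s1 :: (P2 ++ s2 :: P3)).map (fun e => e + 1) := ⟨_, rfl⟩
  obtain ⟨Qm, hQm⟩ : ∃ Qm, Qm = Q.map (fun e => e + 1) := ⟨_, rfl⟩
  have hi : ∀ i ∈ (P1 ++ (P2 ++ P3)) ++ Q, 3 * i + 1 ∈ [kx x s1 s2 (i + 1 - 1)] := by
    intro i hi
    rw [List.mem_singleton, Nat.add_sub_cancel]
    unfold kx
    rw [if_neg]
    rintro (rfl | rfl)
    · exact hs1 hi
    · exact hs2 hi
  refine ⟨Bw R' (fun r => [kx x s1 s2 (r - 1)]),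
    (3 * 0 + 2) :: Bw Qm (fun r => [kx x s1 s2 (r - 1)]), ?_, ?_, ?_, ?_⟩
  · intro K
    rw [ew_eq, show lab (P1 ++ s1 :: (P2 ++ s2 :: P3)) Q = R' ++ 0 :: Qm by rw [hR', hQm]; rfl,
      bw_split]
    congr 1
    · apply bw_congr
      intro r hr
      rw [hR', List.mem_map] at hr
      obtain ⟨i, -, rfl⟩ := hr
      exact if_neg (by omega)
    · congr 2
      apply bw_congr
      intro r hr
      rw [hQm, List.mem_map] at hr
      obtain ⟨i, -, rfl⟩ := hr
      exact if_neg (by omega)
  · have e1 : R' = P1.map (fun e => e + 1) ++ (s1 + 1) ::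
        (P2.map (fun e => e + 1) ++ (s2 + 1) :: P3.map (fun e => e + 1)) := by
      rw [hR']
      simp
    have k1 : kx x s1 s2 (s1 + 1 - 1) = x := if_pos (Or.inl (Nat.add_sub_cancel _ _))
    have k2 : kx x s1 s2 (s2 + 1 - 1) = x := if_pos (Or.inr (Nat.add_sub_cancel _ _))
    rw [e1, bw_split, bw_split, k1, k2]
    simp only [List.count_append, List.count_cons, List.count_nil, beq_self_eq_true, if_true]
    omega
  · intro i h
    rw [mem_bw]
    refine ⟨i + 1, ?_, Or.inl (hi i (List.mem_append_left _ h))⟩
    rw [hR', List.mem_map]
    refine ⟨i, ?_, rfl⟩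
    rw [List.mem_append, List.mem_append] at h
    rw [List.mem_append, List.mem_cons, List.mem_append, List.mem_cons]
    tauto
  · intro i h
    rw [List.mem_cons, mem_bw]
    right
    refine ⟨i + 1, ?_, Or.inl (hi i (List.mem_append_right _ h))⟩
    rw [hQm, List.mem_map]
    exact ⟨i, h, rfl⟩

theorem efb (hSHA : ShaStmt) (hXVB : XvbStmt) (hRGA : RgaStmt) (hRGD : RgdStmt)
    (hERD : ErdStmt) (hEIS : EisStmt) (hIRL : IrlStmt) (hCTG : CtgStmt) (hCTX : CtxStmt) :
    EfbStmt := by
  intro β n x y s1 s2 P1 P2 P3 Q α hE B e hB he hr
  obtain ⟨α', u0, v0, hperm, hproj, huv, hu, hv, huv', hrr⟩ :=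
    common hSHA hXVB hRGA hRGD hERD hIRL hCTG hE (Or.inr rfl) hB he hr
  by_contra hla
  have hyv : y ∈ v0 := by
    by_contra h
    exact hla ⟨u0, v0, huv, h⟩
  obtain ⟨v', hv', huv1⟩ := last_v huv' (fun h => by rw [h] at hyv; simp at hyv)
  have hS2 := (hCTX β).2.1 hE.hc.s2
  obtain ⟨pr, po, hew, hprx, hprP, hpoQ⟩ := ew_form (x := x) hE.nd
  have hnd2 := (pl_perm P1 P2 P3 Q s1 s2).nodup_iff.1 hE.nd
  rw [List.nodup_cons, List.nodup_cons, List.mem_cons, not_or] at hnd2
  obtain ⟨⟨h12, hs1⟩, hs2, hnd3⟩ := hnd2
  have hx3 := hE.hx.1
  have hy3 := hE.hy.1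
  have hxy := hE.xy
  have hxα : x ∉ α := by
    intro h
    have := (hE.can.lc x h hE.hx.1).2
    have := hE.hx.2
    omega
  have hyα : y ∉ α := by
    intro h
    have := (hE.can.lc y h hE.hy.1).2
    have := hE.hy.2
    omega
  have hxα' : x ∉ α' := fun h => hxα (hperm.mem_iff.1 h)
  have hyα' : y ∉ α' := fun h => hyα (hperm.mem_iff.1 h)
  have hcnt : ∀ c, α'.count c = α.count c := List.perm_iff_count.1 hperm
  have hlen : α'.length ≤ n + 1 := by
    rw [hperm.length_eq]
    exact hE.len
  -- the letters are multiple
  have hmult : ∀ u a w, u ++ a :: w = y :: α' → ∀ b ∈ y :: α',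
      2 ≤ (pr ++ ((u ++ x :: a :: (w ++ [y])) ++ po)).count b := by
    intro u a w huw b hb
    have e1 : (pr ++ ((u ++ x :: a :: (w ++ [y])) ++ po)).count b =
        pr.count b + ((u ++ a :: w).count b + (if x = b then 1 else 0) +
          (if y = b then 1 else 0)) + po.count b := by
      simp only [List.count_append, List.count_cons, List.count_nil, beq_iff_eq]
      omega
    rw [e1, huw, List.count_cons, hcnt]
    simp only [beq_iff_eq]
    rw [List.mem_cons] at hb
    rcases hb with rfl | hb
    · rw [if_pos rfl]
      omega
    · have hb' : b ∈ α := hperm.mem_iff.1 hb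
      by_cases h3 : b % 3 = 0
      · rw [(hE.can.lc b hb' h3).1]
        omega
      · have := hE.can.sf b hb'
        obtain ⟨i, hi, rfl⟩ := hE.can.ps b hb' (by omega)
        rw [hE.can.pl i hi]
        rcases List.mem_append.1 hi with h | h
        · have := List.count_pos_iff.2 (hprP i h)
          omega
        · have := List.count_pos_iff.2 (hpoQ i h)
          omega
  -- one step
  have step : ∀ u a w, u ++ a :: w = y :: α' →
      RR β (EW x s1 s2 P1 P2 P3 Q (y :: (α ++ [y, x])))
        (EW x s1 s2 P1 P2 P3 Q (u ++ x :: a :: (w ++ [y]))) →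
      RR β (EW x s1 s2 P1 P2 P3 Q (u ++ x :: a :: (w ++ [y])))
        (EW x s1 s2 P1 P2 P3 Q (u ++ a :: x :: (w ++ [y]))) := by
    intro u a w huw hE1
    have hxpr : x ∈ pr := by
      rw [← List.count_pos_iff]
      omega
    -- exchange by S2 if `a` occurs later
    have hs : a ∈ (w ++ [y]) ++ po → RR β (EW x s1 s2 P1 P2 P3 Q (u ++ x :: a :: (w ++ [y])))
        (EW x s1 s2 P1 P2 P3 Q (u ++ a :: x :: (w ++ [y]))) := by
      intro ha
      rw [hew, hew]
      have h1 := hS2 (pr ++ u) ((w ++ [y]) ++ po) x a (List.mem_append_left _ hxpr) ha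
      simpa only [List.append_assoc, List.cons_append] using h1
    have ha : a ∈ y :: α' := by
      rw [← huw]
      simp
    by_cases hay : a = y
    · apply hs
      rw [hay]
      simp
    have haα' : a ∈ α' := by
      rw [List.mem_cons] at ha
      tauto
    have haα : a ∈ α := hperm.mem_iff.1 haα'
    have hax : a ≠ x := fun h => hxα (h ▸ haα)
    by_cases h3 : a % 3 = 0
    · -- a local letter
      by_cases haw : a ∈ w
      · apply hs
        simp [haw]
      · have hau : a ∈ u := by
          have h1 : (u ++ a :: w).count a = 2 := by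
            rw [huw, List.count_cons_of_ne (fun h => hay h.symm), hcnt]
            exact (hE.can.lc a haα h3).1
          rw [List.count_append, List.count_cons_self, List.count_eq_zero.2 haw] at h1
          rw [← List.count_pos_iff]
          omega
        obtain ⟨u1, c, hc⟩ := List.append_of_mem hau
        have h1 := hE.ef (pr ++ u1) c ((w ++ [y]) ++ po) x a (by
            have h2 := congrArg List.length huw
            rw [hc] at h2
            simp only [List.length_append, List.length_cons] at h2
            omega) (by
            intro b hb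
            have h2 := hmult u a w huw b (by
              rw [← huw, hc]
              simp [hb])
            rw [hc] at h2
            simpa only [List.append_assoc, List.cons_append] using h2) (by
            rw [List.count_append]
            omega)
        rw [hew, hew, hc]
        simpa only [List.append_assoc, List.cons_append] using h1
    · have := hE.can.sf a haα
      obtain ⟨i, hi, rfl⟩ := hE.can.ps a haα (by omega)
      rcases List.mem_append.1 hi with hiP | hiQ
      · -- an L-passive
        obtain ⟨R, hR⟩ : ∃ R, R = lab (P1 ++ s1 :: (P2 ++ s2 :: P3)) Q := ⟨_, rfl⟩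
        have hnd : R.Nodup := by rw [hR]; exact nodup_lab hE.nd
        obtain ⟨p3, hp3⟩ : ∃ p3 : ℕ → Bool, p3 = fun c => decide (c = x ∨ c = 3 * i + 1 ∨
          c % 3 = 2) := ⟨_, rfl⟩
        have h1 := hE1.filter p3
        rw [ew_eq, ew_eq, ← hR, bw_filt p3 _ R (fun r _ => by
          rw [hp3, decide_eq_true_iff]
          omega), bw_filt p3 _ R (fun r _ => by
          rw [hp3, decide_eq_true_iff]
          omega)] at h1
        have hone : (u ++ (3 * i + 1) :: w).count (3 * i + 1) = 1 := by
          rw [huw, List.count_cons_of_ne (fun h => hay h.symm), hcnt]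
          exact hE.can.pl i hi
        rw [List.count_append, List.count_cons_self] at hone
        have hau : 3 * i + 1 ∉ u := by
          rw [← List.count_eq_zero]
          omega
        have haw : 3 * i + 1 ∉ w := by
          rw [← List.count_eq_zero]
          omega
        have hmem : ∀ c, c ∈ u ∨ c ∈ w → c = y ∨ c ∈ α' := by
          intro c hc
          have : c ∈ u ++ (3 * i + 1) :: w := by
            rw [List.mem_append, List.mem_cons]
            tauto
          rw [huw, List.mem_cons] at this
          exact this
        have hfl : ∀ l : List ℕ, (∀ c ∈ l, (c ∈ u ∨ c ∈ w)) → l.filter p3 = [] := by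
          intro l hl
          rw [List.filter_eq_nil_iff]
          intro c hc h
          rw [hp3, decide_eq_true_iff] at h
          rcases h with h | h | h
          · rcases hmem c (hl c hc) with h' | h'
            · exact hxy (h ▸ h')
            · exact hxα' (h ▸ h')
          · rcases hl c hc with h' | h'
            · exact hau (h ▸ h')
            · exact haw (h ▸ h')
          · rcases hmem c (hl c hc) with h' | h'
            · omega
            · exact hE.can.sf c (hperm.mem_iff.1 h') h
        have f1 : (y :: (α ++ [y, x])).filter p3 = [3 * i + 1, x] := by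
          have e1 : α.filter p3 = [3 * i + 1] := by
            rw [List.filter_congr (q := fun c => c == 3 * i + 1) (fun c hc => by
              have := hE.can.sf c hc
              rw [hp3, Bool.eq_iff_iff, decide_eq_true_iff, beq_iff_eq]
              constructor
              · rintro (h | h | h)
                · exact absurd (h ▸ hc) hxα
                · exact h
                · exact absurd h this
              · intro h
                exact Or.inr (Or.inl h)), List.filter_beq, hE.can.pl i hi]
            rfl
          have hpy : ¬ p3 y = true := by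
            rw [hp3, decide_eq_true_iff]
            omega
          rw [List.filter_cons_of_neg hpy, List.filter_append, e1,
            List.filter_cons_of_neg hpy, List.filter_cons_of_pos (by
              rw [hp3, decide_eq_true_iff]
              exact Or.inl rfl)]
          rfl
        have f2 : (u ++ x :: (3 * i + 1) :: (w ++ [y])).filter p3 = [x, 3 * i + 1] := by
          have hpy : ¬ p3 y = true := by
            rw [hp3, decide_eq_true_iff]
            omega
          rw [List.filter_append, hfl u (fun c hc => Or.inl hc), List.filter_cons_of_pos (by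
              rw [hp3, decide_eq_true_iff]
              exact Or.inl rfl), List.filter_cons_of_pos (by
              rw [hp3, decide_eq_true_iff]
              exact Or.inr (Or.inl rfl)), List.filter_append, hfl w (fun c hc => Or.inr hc),
            List.filter_cons_of_neg hpy]
          rfl
        have hkx : ∀ j, (kx x s1 s2 j) % 3 ≠ 2 := by
          intro j
          unfold kx
          split_ifs <;> omega
        have sfd : ∀ K : List ℕ, SFr (K.filter p3) → ∀ r ∈ R,
            SFr ((DL x s1 s2 K r).filter p3) := by
          intro K hK r _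
          unfold DL
          split_ifs with h
          · exact hK
          · intro c hc
            have := List.mem_of_mem_filter hc
            rw [List.mem_singleton] at this
            rw [this]
            exact hkx _
        have snil : SFr [] := fun c hc => absurd hc (by simp)
        have hir := hIRL β R (fun r => (DL x s1 s2 (y :: (α ++ [y, x])) r).filter p3)
          (fun r => (DL x s1 s2 (u ++ x :: (3 * i + 1) :: (w ++ [y])) r).filter p3)
          (fun r => if r = 0 then u else [kx x s1 s2 (r - 1)].filter (fun c => ! p3 c))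
          (fun r => if r = 0 then w ++ [y] else []) [] [] [] [] hnd
          (sfd _ (by
            rw [f1]
            intro c hc
            simp only [List.mem_cons, List.not_mem_nil, or_false] at hc
            omega)) (sfd _ (by
            rw [f2]
            intro c hc
            simp only [List.mem_cons, List.not_mem_nil, or_false] at hc
            omega)) snil snil (by
            rw [List.append_nil, List.append_nil]
            exact h1)
        simp only [List.append_nil] at hir
        have g : ∀ K K' : List ℕ, u ++ (K.filter p3 ++ (w ++ [y])) = K' →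
            Bw R (fun r => (if r = 0 then u else
              [kx x s1 s2 (r - 1)].filter (fun c => ! p3 c)) ++
                ((DL x s1 s2 K r).filter p3 ++ (if r = 0 then w ++ [y] else []))) =
              EW x s1 s2 P1 P2 P3 Q K' := by
          intro K K' hK
          rw [ew_eq, ← hR]
          apply bw_congr
          intro r _
          show (if r = 0 then u else [kx x s1 s2 (r - 1)].filter (fun c => ! p3 c)) ++
            ((DL x s1 s2 K r).filter p3 ++ (if r = 0 then w ++ [y] else [])) = _
          by_cases h0 : r = 0
          · subst h0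
            rw [if_pos rfl, if_pos rfl]
            exact hK
          · have hD : ∀ M : List ℕ, DL x s1 s2 M r = [kx x s1 s2 (r - 1)] := fun M => if_neg h0
            rw [if_neg h0, if_neg h0, hD, hD, List.append_nil]
            by_cases hp : p3 (kx x s1 s2 (r - 1)) = true
            · rw [List.filter_cons_of_neg (by simp [hp]), List.filter_cons_of_pos hp]
              rfl
            · rw [List.filter_cons_of_pos (by simpa using hp), List.filter_cons_of_neg hp]
              rfl
        rw [g _ (u ++ (3 * i + 1) :: x :: (w ++ [y])) (by rw [f1]; rfl),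
          g _ (u ++ x :: (3 * i + 1) :: (w ++ [y])) (by rw [f2]; rfl)] at hir
        exact RR.symm hir
      · apply hs
        rw [List.mem_append]
        exact Or.inr (hpoQ i hiQ)
  have move : ∀ w u, u ++ w = y :: α' →
      RR β (EW x s1 s2 P1 P2 P3 Q (y :: (α ++ [y, x])))
        (EW x s1 s2 P1 P2 P3 Q (u ++ x :: (w ++ [y]))) →
      RR β (EW x s1 s2 P1 P2 P3 Q (y :: (α ++ [y, x])))
        (EW x s1 s2 P1 P2 P3 Q (y :: (α' ++ [x, y]))) := by
    intro w
    induction w with
    | nil =>
      intro u hu h
      rw [List.append_nil] at hu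
      rw [hu] at h
      simpa using h
    | cons a w ih =>
      intro u hu h
      rw [List.cons_append] at h
      have h1 := step u a w hu h
      apply ih (u ++ [a])
      · rw [← hu]
        simp
      · have e1 : u ++ [a] ++ x :: (w ++ [y]) = u ++ a :: x :: (w ++ [y]) := by simp
        rw [e1]
        exact β.trans h h1
  rw [hv'] at hrr
  have h1 := move v' u0 huv1 hrr
  have h2 := hEIS β x s1 s2 P1 P2 P3 Q α α' [y] [x, y] hE.nd hE.can.sf
    (fun c hc => hE.can.sf c (hperm.mem_iff.1 hc)) hproj
  exact hE.nr (RR.symm (β.trans h1 (RR.symm h2)))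

end Pool.Agent.MVD.H35
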