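import Pool.Agent.MVD.StmtsLoc
import Pool.Agent.Helper21_MVD.UNI

/-!
# Squad MVD, rows EFA and EFB (helper35): the common part
-/

namespace Pool.Agent.MVD.H35

open Pool.Agent.Helper14_MV Pool.Agent.Helper2_MV Pool.Agent.MVD

/-- the blocks of `EW` -/
def DL (x s1 s2 : ℕ) (L : List ℕ) (r : ℕ) : List ℕ := if r = 0 then L else [kx x s1 s2 (r - 1)]

theorem ew_eq (x s1 s2 : ℕ) (P1 P2 P3 Q L : List ℕ) :
    EW x s1 s2 P1 P2 P3 Q L = Bw (lab (P1 ++ s1 :: (P2 ++ s2 :: P3)) Q) (DL x s1 s2 L) := rfl

theorem mem_bw {R : List ℕ} {B : ℕ → List ℕ} {c : ℕ} :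
    c ∈ Bw R B ↔ ∃ r ∈ R, c ∈ B r ∨ c = 3 * r + 2 := by
  unfold Bw
  rw [List.mem_flatMap]
  simp only [List.mem_append, List.mem_singleton]

theorem bw_congr {R : List ℕ} {B B' : ℕ → List ℕ} (h : ∀ r ∈ R, B r = B' r) :
    Bw R B = Bw R B' := by
  unfold Bw
  apply List.flatMap_congr
  intro r hr
  rw [h r hr]

theorem bw_split (R1 R2 : List ℕ) (s : ℕ) (B : ℕ → List ℕ) :
    Bw (R1 ++ s :: R2) B = Bw R1 B ++ (B s ++ (3 * s + 2) :: Bw R2 B) := by
  unfold Bw
  rw [List.flatMap_append, List.flatMap_cons, List.append_assoc, List.cons_append,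
    List.nil_append]

theorem bw_app (R S : List ℕ) (B : ℕ → List ℕ) : Bw (R ++ S) B = Bw R B ++ Bw S B := by
  unfold Bw
  rw [List.flatMap_append]

theorem bw_filt (p : ℕ → Bool) (B : ℕ → List ℕ) (R : List ℕ)
    (h : ∀ r ∈ R, p (3 * r + 2) = true) :
    (Bw R B).filter p = Bw R (fun r => (B r).filter p) := by
  induction R with
  | nil => rfl
  | cons r R ih =>
    have ih := ih fun q hq => h q (List.mem_cons_of_mem _ hq)
    unfold Bw at ih ⊢
    rw [List.flatMap_cons, List.flatMap_cons, List.filter_append, List.filter_append, ih]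
    congr 2
    rw [List.filter_cons_of_pos (h r List.mem_cons_self)]
    rfl

theorem bw_erase (p : ℕ → Bool) (B : ℕ → List ℕ) {A C : List ℕ} {s : ℕ}
    (hB : (B s).filter p = []) (hs : p (3 * s + 2) = false) :
    (Bw (A ++ s :: C) B).filter p = (Bw (A ++ C) B).filter p := by
  rw [bw_split, bw_app, List.filter_append, List.filter_append, List.filter_append, hB,
    List.filter_cons_of_neg (by simp [hs]), List.nil_append]

theorem lab_split (P1 P2 P3 Q : List ℕ) (s1 s2 : ℕ) :
    lab (P1 ++ s1 :: (P2 ++ s2 :: P3)) Q = P1.map (fun e => e + 1) ++ (s1 + 1) ::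
      (P2.map (fun e => e + 1) ++ (s2 + 1) :: (P3.map (fun e => e + 1) ++
        0 :: Q.map (fun e => e + 1))) := by
  simp [lab]

theorem lab_3 (P1 P2 P3 Q : List ℕ) :
    lab (P1 ++ (P2 ++ P3)) Q = P1.map (fun e => e + 1) ++
      (P2.map (fun e => e + 1) ++ (P3.map (fun e => e + 1) ++ 0 :: Q.map (fun e => e + 1))) := by
  simp [lab]

theorem mem_lab {P Q : List ℕ} {r : ℕ} : r ∈ lab P Q ↔ r = 0 ∨ ∃ i ∈ P ++ Q, r = i + 1 := by
  unfold lab
  rw [List.mem_append, List.mem_cons, List.mem_map, List.mem_map]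
  constructor
  · rintro (⟨i, hi, rfl⟩ | rfl | ⟨i, hi, rfl⟩)
    · exact Or.inr ⟨i, List.mem_append_left _ hi, rfl⟩
    · exact Or.inl rfl
    · exact Or.inr ⟨i, List.mem_append_right _ hi, rfl⟩
  · rintro (rfl | ⟨i, hi, rfl⟩)
    · exact Or.inr (Or.inl rfl)
    · rcases List.mem_append.1 hi with h | h
      · exact Or.inl ⟨i, h, rfl⟩
      · exact Or.inr (Or.inr ⟨i, h, rfl⟩)

theorem nodup_lab {P Q : List ℕ} (h : (P ++ Q).Nodup) : (lab P Q).Nodup := by
  unfold lab
  rw [List.perm_middle.nodup_iff, ← List.map_append, List.nodup_cons]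
  constructor
  · intro h1
    rw [List.mem_map] at h1
    obtain ⟨i, -, h2⟩ := h1
    omega
  · exact h.map fun a b hab => by
      have hab : a + 1 = b + 1 := hab
      omega

theorem pl_perm (P1 P2 P3 Q : List ℕ) (s1 s2 : ℕ) :
    ((P1 ++ s1 :: (P2 ++ s2 :: P3)) ++ Q).Perm (s1 :: s2 :: ((P1 ++ (P2 ++ P3)) ++ Q)) := by
  rw [List.perm_iff_count]
  intro a
  simp only [List.count_append, List.count_cons]
  omega

/-- a list in which every letter but `x` is `z` -/
theorem filt_one {l : List ℕ} {x z : ℕ} (hzx : z ≠ x) (h : ∀ c ∈ l, c ≠ x → c = z)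
    (hc : l.count z = 1) : l.filter (fun a => decide (a ≠ x)) = [z] := by
  have h1 : l.filter (fun a => decide (a ≠ x)) =
      List.replicate (l.filter (fun a => decide (a ≠ x))).length z := by
    apply List.eq_replicate_of_mem
    intro c hc
    rw [List.mem_filter, decide_eq_true_iff] at hc
    exact h c hc.1 hc.2
  have h2 : (l.filter (fun a => decide (a ≠ x))).count z = 1 := by
    rw [List.count_filter (by simpa using hzx)]
    exact hc
  rw [h1, List.count_replicate_self] at h2
  rw [h1, h2]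
  rfl

theorem facts (hSHA : ShaStmt) (hXVB : XvbStmt) {β : FIC} {n x y s1 s2 : ℕ}
    {P1 P2 P3 Q α : List ℕ} (hE : EC β n x y s1 s2 P1 P2 P3 Q α) {T : List ℕ}
    (hT : T = [x, y] ∨ T = [y, x]) {B : ℕ → List ℕ} {e : List ℕ}
    (hB : ∀ r ∈ lab (P1 ++ s1 :: (P2 ++ s2 :: P3)) Q, SFr (B r)) (he : SFr e)
    (hr : RR β (EW x s1 s2 P1 P2 P3 Q (y :: (α ++ T)))
      (Bw (lab (P1 ++ s1 :: (P2 ++ s2 :: P3)) Q) B ++ e)) :
    e = [] ∧ (B 0).count x = 1 ∧
    (∀ q ∈ P3.map (fun e => e + 1) ++ Q.map (fun e => e + 1), (B q).count x = 0) ∧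
    (∀ c ∈ B 0, c = x ∨ c = y ∨ c ∈ α) ∧
    (∀ i ∈ (P1 ++ s1 :: (P2 ++ s2 :: P3)) ++ Q, (B (i + 1)).filter (fun a => decide (a ≠ x)) =
      if i = s1 ∨ i = s2 then [] else [3 * i + 1]) ∧
    (∀ c ∈ α, (B 0).count c = α.count c) ∧
    ((∀ q ∈ lab (P1 ++ s1 :: (P2 ++ s2 :: P3)) Q,
      (DL x s1 s2 (y :: (α ++ T)) q).count y = if q = 0 then 2 else 0) ∧
      (∀ q ∈ lab (P1 ++ s1 :: (P2 ++ s2 :: P3)) Q, (B q).count y = if q = 0 then 2 else 0)) ∧
    (∀ i ∈ (P1 ++ (P2 ++ P3)) ++ Q, (∀ q ∈ lab (P1 ++ s1 :: (P2 ++ s2 :: P3)) Q,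
      (DL x s1 s2 (y :: (α ++ T)) q).count (3 * i + 1) = if q = i + 1 ∨ q = 0 then 1 else 0) ∧
      (∀ q ∈ lab (P1 ++ s1 :: (P2 ++ s2 :: P3)) Q,
        (B q).count (3 * i + 1) = if q = i + 1 ∨ q = 0 then 1 else 0)) := by
  obtain ⟨R, hR⟩ : ∃ R, R = lab (P1 ++ s1 :: (P2 ++ s2 :: P3)) Q := ⟨_, rfl⟩
  obtain ⟨L, hL⟩ : ∃ L, L = y :: (α ++ T) := ⟨_, rfl⟩
  have hnd : R.Nodup := by rw [hR]; exact nodup_lab hE.nd
  have hnd2 := (pl_perm P1 P2 P3 Q s1 s2).nodup_iff.1 hE.nd
  rw [List.nodup_cons, List.nodup_cons, List.mem_cons, not_or] at hnd2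
  obtain ⟨⟨h12, hs1⟩, hs2, hnd3⟩ := hnd2
  have hmp : ∀ i, i ∈ (P1 ++ s1 :: (P2 ++ s2 :: P3)) ++ Q ↔
      i = s1 ∨ i = s2 ∨ i ∈ (P1 ++ (P2 ++ P3)) ++ Q := by
    intro i
    rw [(pl_perm P1 P2 P3 Q s1 s2).mem_iff, List.mem_cons, List.mem_cons]
  have hxα : x ∉ α := by
    intro h
    have := (hE.can.lc x h hE.hx.1).2
    have := hE.hx.2
    omega
  have hyα : y ∉ α := by
    intro h
    have := (hE.can.lc y h hE.hy.1).2
    have := hE.hy.2
    omega
  have hx3 := hE.hx.1
  have hy3 := hE.hy.1
  have hxy := hE.xy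
  have hTc : ∀ c, T.count c = (if x = c then 1 else 0) + (if y = c then 1 else 0) := by
    intro c
    rcases hT with rfl | rfl
    · rw [List.count_cons, List.count_cons, List.count_nil]
      simp only [beq_iff_eq]
      omega
    · rw [List.count_cons, List.count_cons, List.count_nil]
      simp only [beq_iff_eq]
      omega
  have hLc : ∀ c, L.count c = α.count c + (if x = c then 1 else 0) +
      (if y = c then 2 else 0) := by
    intro c
    rw [hL, List.count_cons, List.count_append, hTc]
    simp only [beq_iff_eq]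
    split_ifs <;> omega
  have hLm : ∀ c ∈ L, c = x ∨ c = y ∨ c ∈ α := by
    intro c hc
    rw [hL, List.mem_cons, List.mem_append] at hc
    rcases hc with h | h | h
    · exact Or.inr (Or.inl h)
    · exact Or.inr (Or.inr h)
    · rcases hT with rfl | rfl
      · simp only [List.mem_cons, List.not_mem_nil, or_false] at h
        tauto
      · simp only [List.mem_cons, List.not_mem_nil, or_false] at h
        tauto
  have hsf : ∀ r ∈ R, SFr (DL x s1 s2 L r) := by
    intro r _ c hc
    unfold DL at hc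
    split_ifs at hc
    · rcases hLm c hc with h | h | h
      · omega
      · omega
      · exact hE.can.sf c h
    · rw [List.mem_singleton] at hc
      unfold kx at hc
      split_ifs at hc <;> omega
  have hr' : RR β (Bw R (DL x s1 s2 L)) (Bw R B ++ e) := by
    rw [hR, hL]
    exact hr
  obtain ⟨B', e', hB', he', hw, k0, k1, k2⟩ := hSHA β hE.hc.i2 hE.hc.i3 hE.hc.na R
    (DL x s1 s2 L) _ hnd hsf hr'
  obtain ⟨u1, u2⟩ := H21.uni R B B' e e' hnd (by rw [hR]; exact hB) (fun r _ => hB' r) he he' hw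
  subst u2
  have h0R : 0 ∈ R := by rw [hR, mem_lab]; exact Or.inl rfl
  have hiR : ∀ i ∈ (P1 ++ s1 :: (P2 ++ s2 :: P3)) ++ Q, i + 1 ∈ R := by
    intro i hi
    rw [hR, mem_lab]
    exact Or.inr ⟨i, hi, rfl⟩
  -- the counts in the given word
  have dy : ∀ q ∈ R, (DL x s1 s2 L q).count y = if q = 0 then 2 else 0 := by
    intro q _
    unfold DL
    split_ifs with h
    · rw [hLc, List.count_eq_zero.2 hyα, if_neg hxy, if_pos rfl]
    · unfold kx
      rw [List.count_singleton]
      split_ifs with h1 h2 h3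
      · exact absurd (by simpa using h2) hxy
      · rfl
      · simp at h3
        omega
      · rfl
  have dl : ∀ c ∈ α, c % 3 = 0 → ∀ q ∈ R, (DL x s1 s2 L q).count c = if q = 0 then 2 else 0 := by
    intro c hc hc3 q _
    have e1 : x ≠ c := fun h => hxα (h ▸ hc)
    have e2 : y ≠ c := fun h => hyα (h ▸ hc)
    unfold DL
    split_ifs with h
    · rw [hLc, (hE.can.lc c hc hc3).1, if_neg e1, if_neg e2]
    · unfold kx
      rw [List.count_singleton]
      split_ifs with h1 h2 h3
      · exact absurd (by simpa using h2) e1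
      · rfl
      · simp at h3
        omega
      · rfl
  have dz : ∀ i ∈ (P1 ++ (P2 ++ P3)) ++ Q, ∀ q ∈ R,
      (DL x s1 s2 L q).count (3 * i + 1) = if q = i + 1 ∨ q = 0 then 1 else 0 := by
    intro i hi q _
    have e0 := hE.can.pl i hi
    have e1 : x ≠ 3 * i + 1 := by omega
    have e2 : y ≠ 3 * i + 1 := by omega
    have e3 : i ≠ s1 := fun h => hs1 (h ▸ hi)
    have e4 : i ≠ s2 := fun h => hs2 (h ▸ hi)
    unfold DL
    by_cases h : q = 0
    · rw [if_pos h, if_pos (Or.inr h), hLc, e0, if_neg e1, if_neg e2]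
    · rw [if_neg h, List.count_singleton]
      unfold kx
      by_cases h1 : q = i + 1
      · rw [if_pos (Or.inl h1), if_neg (show ¬ (q - 1 = s1 ∨ q - 1 = s2) by omega), if_pos]
        rw [beq_iff_eq]
        omega
      · rw [if_neg (show ¬ (q = i + 1 ∨ q = 0) by omega), if_neg]
        rw [beq_iff_eq]
        split_ifs
        · exact e1
        · omega
  -- the counts in the other word
  have ky : (∀ q ∈ R, (B q).count y = if q = 0 then 2 else 0) ∧ e.count y = 0 := by
    obtain ⟨a1, a2⟩ := k2 y 0 (by omega) h0R dy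
    exact ⟨fun q hq => by rw [u1 q hq]; exact a1 q hq, a2⟩
  have kl : ∀ c ∈ α, c % 3 = 0 → (∀ q ∈ R, (B q).count c = if q = 0 then 2 else 0) ∧
      e.count c = 0 := by
    intro c hc hc3
    obtain ⟨a1, a2⟩ := k2 c 0 (by omega) h0R (dl c hc hc3)
    exact ⟨fun q hq => by rw [u1 q hq]; exact a1 q hq, a2⟩
  have kz : ∀ i ∈ (P1 ++ (P2 ++ P3)) ++ Q, (∀ q ∈ R,
      (B q).count (3 * i + 1) = if q = i + 1 ∨ q = 0 then 1 else 0) ∧
      e.count (3 * i + 1) = 0 := by
    intro i hi
    obtain ⟨a1, a2⟩ := k1 (3 * i + 1) (i + 1) 0 (by omega)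
      (hiR i ((hmp i).2 (Or.inr (Or.inr hi)))) h0R (by omega) (dz i hi)
    exact ⟨fun q hq => by rw [u1 q hq]; exact a1 q hq, a2⟩
  have kc : ∀ c, ((∃ r ∈ R, c ∈ B r) ∨ c ∈ e) → c = x ∨ c = y ∨ c ∈ α := by
    intro c hc
    by_contra hcon
    rw [not_or, not_or] at hcon
    obtain ⟨a1, a2⟩ := k0 c (by
      intro r hr hcr
      unfold DL at hcr
      split_ifs at hcr with h
      · rcases hLm c hcr with h | h | h
        · exact hcon.1 h
        · exact hcon.2.1 h
        · exact hcon.2.2 h
      · rw [List.mem_singleton] at hcr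
        unfold kx at hcr
        split_ifs at hcr with h1
        · exact hcon.1 hcr
        · rw [hR, mem_lab] at hr
          rcases hr with hr | ⟨i, hi, rfl⟩
          · exact h hr
          · rw [Nat.add_sub_cancel] at h1 hcr
            rw [hmp] at hi
            rcases hi with hi | hi | hi
            · exact h1 (Or.inl hi)
            · exact h1 (Or.inr hi)
            · apply hcon.2.2
              rw [hcr, ← List.count_pos_iff, hE.can.pl i hi]
              exact Nat.one_pos)
    rcases hc with ⟨r, hr, hc⟩ | hc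
    · rw [u1 r hr] at hc
      exact a1 r hr hc
    · exact a2 hc
  -- the letter `x`
  have kx' : (B 0).count x = 1 ∧ (∀ q ∈ P3.map (fun e => e + 1) ++ Q.map (fun e => e + 1),
      (B q).count x = 0) ∧ e.count x = 0 := by
    have hS := lab_split P1 P2 P3 Q s1 s2
    apply hXVB β hE.vx (P1.map (fun e => e + 1)) (P2.map (fun e => e + 1))
      (P3.map (fun e => e + 1)) (Q.map (fun e => e + 1)) (s1 + 1) (s2 + 1) 0
      (DL x s1 s2 L) B e x
    · rw [← hS, ← hR]
      exact hnd
    · rw [← hS, ← hR]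
      exact hsf
    · rw [← hS]
      exact hB
    · exact he
    · omega
    · rw [← hS, ← hR]
      intro q hq
      unfold DL
      by_cases h : q = 0
      · rw [if_pos h, if_pos (Or.inr (Or.inr h)), hLc, List.count_eq_zero.2 hxα, if_pos rfl,
          if_neg (fun h => hxy h.symm)]
      · rw [if_neg h, List.count_singleton]
        unfold kx
        by_cases h1 : q = s1 + 1 ∨ q = s2 + 1
        · rw [if_pos (show q - 1 = s1 ∨ q - 1 = s2 by omega),
            if_pos (show q = s1 + 1 ∨ q = s2 + 1 ∨ q = 0 by omega), if_pos (by rw [beq_iff_eq])]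
        · rw [if_neg (show ¬ (q - 1 = s1 ∨ q - 1 = s2) by omega),
            if_neg (show ¬ (q = s1 + 1 ∨ q = s2 + 1 ∨ q = 0) by omega),
            if_neg (by rw [beq_iff_eq]; omega)]
    · rw [← hS, ← hR]
      exact hr'
  have hα : ∀ c ∈ α, (c % 3 = 0 ∧ (B 0).count c = 2 ∧ α.count c = 2 ∧ e.count c = 0) ∨
      ∃ i ∈ (P1 ++ (P2 ++ P3)) ++ Q, c = 3 * i + 1 := by
    intro c hc
    by_cases h : c % 3 = 0
    · left
      obtain ⟨a1, a2⟩ := kl c hc h
      exact ⟨h, by rw [a1 0 h0R, if_pos rfl], (hE.can.lc c hc h).1, a2⟩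
    · right
      have := hE.can.sf c hc
      exact hE.can.ps c hc (by omega)
  have he0 : e = [] := by
    rw [List.eq_nil_iff_forall_not_mem]
    intro c hc
    have h1 := List.count_pos_iff.2 hc
    rcases kc c (Or.inr hc) with rfl | rfl | h
    · omega
    · omega
    · rcases hα c h with ⟨-, -, -, h2⟩ | ⟨i, hi, rfl⟩
      · omega
      · have := (kz i hi).2
        omega
  refine ⟨he0, kx'.1, kx'.2.1, fun c hc => kc c (Or.inl ⟨0, h0R, hc⟩), ?_, ?_, ?_, ?_⟩
  · intro i hi
    have hiR' := hiR i hi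
    have key : ∀ c ∈ B (i + 1), c ≠ x → c = 3 * i + 1 ∧ i ∈ (P1 ++ (P2 ++ P3)) ++ Q := by
      intro c hc hcx
      have h1 := List.count_pos_iff.2 hc
      rcases kc c (Or.inl ⟨_, hiR', hc⟩) with h | h | h
      · exact absurd h hcx
      · subst h
        rw [ky.1 _ hiR', if_neg (by omega)] at h1
        omega
      · by_cases h3 : c % 3 = 0
        · rw [(kl c h h3).1 _ hiR', if_neg (by omega)] at h1
          omega
        · have := hE.can.sf c h
          obtain ⟨j, hj, rfl⟩ := hE.can.ps c h (by omega)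
          rw [(kz j hj).1 _ hiR'] at h1
          by_cases hij : i = j
          · subst hij
            exact ⟨rfl, hj⟩
          · rw [if_neg (by omega)] at h1
            omega
    by_cases h : i = s1 ∨ i = s2
    · rw [if_pos h, List.filter_eq_nil_iff]
      intro c hc hcx
      rw [decide_eq_true_iff] at hcx
      have := (key c hc hcx).2
      rcases h with rfl | rfl
      · exact hs1 this
      · exact hs2 this
    · rw [if_neg h]
      have hi' : i ∈ (P1 ++ (P2 ++ P3)) ++ Q := by
        rw [hmp] at hi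
        tauto
      apply filt_one (by omega) (fun c hc hcx => (key c hc hcx).1)
      rw [(kz i hi').1 _ hiR', if_pos (Or.inl rfl)]
  · intro c hc
    rcases hα c hc with ⟨-, h1, h2, -⟩ | ⟨i, hi, rfl⟩
    · rw [h1, h2]
    · rw [(kz i hi).1 0 h0R, if_pos (Or.inr rfl), hE.can.pl i hi]
  · rw [← hR, ← hL]
    exact ⟨dy, ky.1⟩
  · intro i hi
    rw [← hR, ← hL]
    exact ⟨dz i hi, (kz i hi).1⟩

theorem filt_x {l : List ℕ} (hl : SFr l) (x : ℕ) :
    l.filter (fun c => decide (c = x ∨ c % 3 = 2)) = List.replicate (l.count x) x := by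
  rw [List.filter_congr (q := fun c => c == x) (fun c hc => by
    have := hl c hc
    rw [Bool.eq_iff_iff, decide_eq_true_iff, beq_iff_eq]
    omega)]
  exact List.filter_beq x

theorem shape {l α' : List ℕ} {x y a b : ℕ} (hx : l.count x = 1) (hy : l.count y = 2)
    (hxy : x ≠ y) (hα : l.filter (fun c => decide (c ≠ x ∧ c ≠ y)) = α')
    (ha : ∃ l1, α' = a :: l1) (hb : ∃ l2, α' = l2 ++ [b]) (hbc : α'.count b = 1)
    (hFA : FA y a l) (hLA : ¬ LA y b l) :
    ∃ u v, l = u ++ x :: v ∧ x ∉ u ∧ x ∉ v ∧ u ++ v = y :: (α' ++ [y]) := by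
  obtain ⟨l0, hl0⟩ : ∃ l0, l0 = l.filter (fun c => decide (c ≠ x)) := ⟨_, rfl⟩
  have hα0 : l0.filter (fun c => decide (c ≠ y)) = α' := by
    rw [hl0, List.filter_filter, ← hα]
    apply List.filter_congr
    intro c _
    rw [Bool.eq_iff_iff, Bool.and_eq_true, decide_eq_true_iff, decide_eq_true_iff,
      decide_eq_true_iff]
    tauto
  have hy0 : l0.count y = 2 := by
    rw [hl0, List.count_filter (by simpa using fun h => hxy h.symm)]
    exact hy
  -- the head
  have hh : ∃ γ, l0 = y :: γ := by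
    obtain ⟨A, C, h1, h2⟩ := hFA
    obtain ⟨l1, hl1⟩ := ha
    have e1 : l0 = A.filter (fun c => decide (c ≠ x)) ++
        y :: C.filter (fun c => decide (c ≠ x)) := by
      rw [hl0, h1, List.filter_append, List.filter_cons_of_pos (by simpa using fun h => hxy h.symm)]
    obtain ⟨A0, hA0⟩ : ∃ A0, A0 = A.filter (fun c => decide (c ≠ x)) := ⟨_, rfl⟩
    rw [← hA0] at e1
    rcases A0 with _ | ⟨h, t⟩
    · exact ⟨_, e1⟩
    · by_cases hhy : h = y
      · subst hhy
        exact ⟨_, e1⟩
      · exfalso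
        rw [e1, List.cons_append, List.filter_cons_of_pos (by simpa using hhy), hl1,
          List.cons.injEq] at hα0
        apply h2
        rw [← hα0.1]
        have : h ∈ h :: t := List.mem_cons_self
        rw [hA0] at this
        exact List.mem_of_mem_filter this
  -- the last letter
  have ht : ∃ γ, l0 = γ ++ [y] := by
    obtain ⟨l2, hl2⟩ := hb
    have hbl : b ∈ l := by
      have : b ∈ α' := by rw [hl2]; simp
      rw [← hα] at this
      exact List.mem_of_mem_filter this
    have hbxy : b ≠ x ∧ b ≠ y := by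
      have : b ∈ α' := by rw [hl2]; simp
      rw [← hα, List.mem_filter, decide_eq_true_iff] at this
      exact this.2
    obtain ⟨A, C, h1⟩ := List.append_of_mem hbl
    have h2 : y ∈ C := by
      by_contra h
      exact hLA ⟨A, C, h1, h⟩
    have e1 : l0 = A.filter (fun c => decide (c ≠ x)) ++
        b :: C.filter (fun c => decide (c ≠ x)) := by
      rw [hl0, h1, List.filter_append, List.filter_cons_of_pos (by simpa using hbxy.1)]
    obtain ⟨A0, hA0⟩ : ∃ A0, A0 = A.filter (fun c => decide (c ≠ x)) := ⟨_, rfl⟩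
    obtain ⟨C0, hC0⟩ : ∃ C0, C0 = C.filter (fun c => decide (c ≠ x)) := ⟨_, rfl⟩
    rw [← hA0, ← hC0] at e1
    have e2 : A0.filter (fun c => decide (c ≠ y)) ++ b :: C0.filter (fun c => decide (c ≠ y)) =
        α' := by
      rw [← hα0, e1, List.filter_append, List.filter_cons_of_pos (by simpa using hbxy.2)]
    have e3 : (A0.filter (fun c => decide (c ≠ y))).count b = 0 ∧
        (C0.filter (fun c => decide (c ≠ y))).count b = 0 := by
      rw [← e2, List.count_append, List.count_cons_self] at hbc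
      omega
    rw [List.count_eq_zero, List.count_eq_zero] at e3
    have e4 : C0.filter (fun c => decide (c ≠ y)) = [] := by
      rw [hl2] at e2
      exact ((List.append_cons_inj_of_notMem e3.1 e3.2).1 e2).2.2
    have e5 : y ∈ C0 := by
      rw [hC0, List.mem_filter, decide_eq_true_iff]
      exact ⟨h2, fun h => hxy h.symm⟩
    rcases List.eq_nil_or_concat C0 with h | ⟨C1, z, h⟩
    · rw [h] at e5
      simp at e5
    · have hz : z = y := by
        by_contra hz
        rw [List.filter_eq_nil_iff] at e4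
        exact e4 z (by rw [h]; simp) (by simpa using hz)
      rw [hz] at h
      exact ⟨A0 ++ b :: C1, by rw [e1, h]; simp⟩
  obtain ⟨γ, hγ⟩ := hh
  obtain ⟨γ', hγ'⟩ := ht
  have hl0' : l0 = y :: (α' ++ [y]) := by
    rcases γ' with _ | ⟨c, δ⟩
    · rw [hγ'] at hy0
      simp at hy0
    · have hc : y = c := by
        rw [hγ, List.cons_append, List.cons.injEq] at hγ'
        exact hγ'.1
      subst hc
      rw [List.cons_append] at hγ'
      have h1 : δ.count y = 0 := by
        rw [hγ', List.count_cons_self, List.count_append, List.count_cons_self] at hy0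
        omega
      have h2 : δ = α' := by
        rw [← hα0, hγ', List.filter_cons_of_neg (by simp), List.filter_append,
          List.filter_cons_of_neg (by simp), List.filter_nil, List.append_nil]
        symm
        rw [List.filter_eq_self]
        intro c hc
        rw [decide_eq_true_iff]
        intro h
        rw [List.count_eq_zero] at h1
        exact h1 (h ▸ hc)
      rw [hγ', h2]
  have hxl : x ∈ l := by
    rw [← List.count_pos_iff]
    omega
  obtain ⟨u, v, huv⟩ := List.append_of_mem hxl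
  have hc : u.count x = 0 ∧ v.count x = 0 := by
    rw [huv, List.count_append, List.count_cons_self] at hx
    omega
  rw [List.count_eq_zero, List.count_eq_zero] at hc
  refine ⟨u, v, huv, hc.1, hc.2, ?_⟩
  rw [← hl0', hl0, huv, List.filter_append, List.filter_cons_of_neg (by simp)]
  congr 1
  · symm
    rw [List.filter_eq_self]
    intro c h
    rw [decide_eq_true_iff]
    intro h'
    exact hc.1 (h' ▸ h)
  · symm
    rw [List.filter_eq_self]
    intro c h
    rw [decide_eq_true_iff]
    intro h'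
    exact hc.2 (h' ▸ h)

theorem common (hSHA : ShaStmt) (hXVB : XvbStmt) (hRGA : RgaStmt) (hRGD : RgdStmt)
    (hERD : ErdStmt) (hIRL : IrlStmt) (hCTG : CtgStmt) {β : FIC} {n x y s1 s2 : ℕ}
    {P1 P2 P3 Q α : List ℕ} (hE : EC β n x y s1 s2 P1 P2 P3 Q α) {T : List ℕ}
    (hT : T = [x, y] ∨ T = [y, x]) {B : ℕ → List ℕ} {e : List ℕ}
    (hB : ∀ r ∈ lab (P1 ++ s1 :: (P2 ++ s2 :: P3)) Q, SFr (B r)) (he : SFr e)
    (hr : RR β (EW x s1 s2 P1 P2 P3 Q (y :: (α ++ T)))
      (Bw (lab (P1 ++ s1 :: (P2 ++ s2 :: P3)) Q) B ++ e)) :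
    ∃ α' u v, α'.Perm α ∧ RR β (Wm (P1 ++ (P2 ++ P3)) Q α) (Wm (P1 ++ (P2 ++ P3)) Q α') ∧
      B 0 = u ++ x :: v ∧ x ∉ u ∧ x ∉ v ∧ u ++ v = y :: (α' ++ [y]) ∧
      RR β (EW x s1 s2 P1 P2 P3 Q (y :: (α ++ T))) (EW x s1 s2 P1 P2 P3 Q (u ++ x :: v)) := by
  obtain ⟨he0, hx0, hx1, hm, hpl, hα, ⟨dy, ky⟩, hz⟩ := facts hSHA hXVB hE hT hB he hr
  subst he0
  rw [List.append_nil] at hr
  obtain ⟨R, hR⟩ : ∃ R, R = lab (P1 ++ s1 :: (P2 ++ s2 :: P3)) Q := ⟨_, rfl⟩
  obtain ⟨L, hL⟩ : ∃ L, L = y :: (α ++ T) := ⟨_, rfl⟩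
  have hnd : R.Nodup := by rw [hR]; exact nodup_lab hE.nd
  have hnd2 := (pl_perm P1 P2 P3 Q s1 s2).nodup_iff.1 hE.nd
  rw [List.nodup_cons, List.nodup_cons, List.mem_cons, not_or] at hnd2
  obtain ⟨⟨h12, hs1⟩, hs2, hnd3⟩ := hnd2
  have hmp : ∀ i, i ∈ (P1 ++ s1 :: (P2 ++ s2 :: P3)) ++ Q ↔
      i = s1 ∨ i = s2 ∨ i ∈ (P1 ++ (P2 ++ P3)) ++ Q := by
    intro i
    rw [(pl_perm P1 P2 P3 Q s1 s2).mem_iff, List.mem_cons, List.mem_cons]
  have hxα : x ∉ α := by
    intro h
    have := (hE.can.lc x h hE.hx.1).2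
    have := hE.hx.2
    omega
  have hyα : y ∉ α := by
    intro h
    have := (hE.can.lc y h hE.hy.1).2
    have := hE.hy.2
    omega
  have hx3 := hE.hx.1
  have hy3 := hE.hy.1
  have hxy := hE.xy
  have h0R : 0 ∈ R := by rw [hR, mem_lab]; exact Or.inl rfl
  have hsfL : SFr L := by
    intro c hc
    rw [hL, List.mem_cons, List.mem_append] at hc
    rcases hc with h | h | h
    · omega
    · exact hE.can.sf c h
    · have : c = x ∨ c = y := by
        rcases hT with rfl | rfl
        · simpa using h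
        · rw [or_comm]
          simpa using h
      omega
  have hsf : ∀ r ∈ R, SFr (DL x s1 s2 L r) := by
    intro r _ c hc
    unfold DL at hc
    split_ifs at hc
    · exact hsfL c hc
    · rw [List.mem_singleton] at hc
      unfold kx at hc
      split_ifs at hc <;> omega
  have hr' : RR β (Bw R (DL x s1 s2 L)) (Bw R B) := by
    rw [hR, hL]
    exact hr
  rw [← hR] at hB
  have hy2 : (B 0).count y = 2 := by
    rw [ky 0 (by rw [← hR]; exact h0R), if_pos rfl]
  -- the arrangement of `α`
  obtain ⟨α', hα'⟩ : ∃ α', α' = (B 0).filter (fun c => decide (c ≠ x ∧ c ≠ y)) := ⟨_, rfl⟩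
  have hperm : α'.Perm α := by
    rw [List.perm_iff_count]
    intro c
    by_cases h : c = x ∨ c = y
    · rw [List.count_eq_zero.2, List.count_eq_zero.2]
      · rcases h with rfl | rfl
        · exact hxα
        · exact hyα
      · rw [hα', List.mem_filter, decide_eq_true_iff]
        rintro ⟨-, h1, h2⟩
        tauto
    · rw [hα', List.count_filter (by simpa [not_or] using h)]
      by_cases hc : c ∈ α
      · exact hα c hc
      · rw [List.count_eq_zero.2 hc, List.count_eq_zero]
        intro h1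
        rcases hm c h1 with h2 | h2 | h2
        · exact h (Or.inl h2)
        · exact h (Or.inr h2)
        · exact hc h2
  -- projection
  have hproj : RR β (Wm (P1 ++ (P2 ++ P3)) Q α) (Wm (P1 ++ (P2 ++ P3)) Q α') := by
    obtain ⟨p, hp⟩ : ∃ p : ℕ → Bool, p = fun c => decide (c ≠ x ∧ c ≠ y ∧
      c ≠ 3 * (s1 + 1) + 2 ∧ c ≠ 3 * (s2 + 1) + 2) := ⟨_, rfl⟩
    have pr : ∀ C : ℕ → List ℕ, (C (s1 + 1)).filter p = [] → (C (s2 + 1)).filter p = [] →
        (Bw R C).filter p = Bw (lab (P1 ++ (P2 ++ P3)) Q) (fun r => (C r).filter p) := by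
      intro C h1 h2
      rw [hR, lab_split, bw_erase p C h1 (by rw [hp]; simp), ← List.append_assoc,
        bw_erase p C h2 (by rw [hp]; simp), List.append_assoc, ← lab_3, bw_filt]
      intro r hr
      rw [mem_lab] at hr
      rw [hp, decide_eq_true_iff]
      have h3 : r ≠ s1 + 1 := by
        rintro rfl
        rcases hr with h | ⟨i, hi, h⟩
        · omega
        · exact hs1 (by rw [show s1 = i by omega]; exact hi)
      have h4 : r ≠ s2 + 1 := by
        rintro rfl
        rcases hr with h | ⟨i, hi, h⟩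
        · omega
        · exact hs2 (by rw [show s2 = i by omega]; exact hi)
      exact ⟨by omega, by omega, by omega, by omega⟩
    have h1 := hr'.filter p
    rw [pr, pr] at h1
    · have e1 : Bw (lab (P1 ++ (P2 ++ P3)) Q) (fun r => (DL x s1 s2 L r).filter p) =
          Wm (P1 ++ (P2 ++ P3)) Q α := by
        apply bw_congr
        intro r hr
        rw [mem_lab] at hr
        rcases hr with rfl | ⟨i, hi, rfl⟩
        · rw [if_pos rfl]
          show L.filter p = α
          rw [hL, List.filter_cons_of_neg (by rw [hp]; simp), List.filter_append,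
            List.filter_eq_self.2, (List.filter_eq_nil_iff (l := T)).2, List.append_nil]
          · intro c hc
            rcases hT with rfl | rfl
            · simp only [List.mem_cons, List.not_mem_nil, or_false] at hc
              rw [hp, decide_eq_true_iff]
              tauto
            · simp only [List.mem_cons, List.not_mem_nil, or_false] at hc
              rw [hp, decide_eq_true_iff]
              tauto
          · intro c hc
            have := hE.can.sf c hc
            rw [hp, decide_eq_true_iff]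
            exact ⟨fun h => hxα (h ▸ hc), fun h => hyα (h ▸ hc), by omega, by omega⟩
        · rw [if_neg (by omega)]
          show [kx x s1 s2 i].filter p = [3 * i + 1]
          unfold kx
          rw [if_neg (by
            rintro (rfl | rfl)
            · exact hs1 hi
            · exact hs2 hi), List.filter_cons_of_pos, List.filter_nil]
          rw [hp, decide_eq_true_iff]
          exact ⟨by omega, by omega, by omega, by omega⟩
      have e2 : Bw (lab (P1 ++ (P2 ++ P3)) Q) (fun r => (B r).filter p) =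
          Wm (P1 ++ (P2 ++ P3)) Q α' := by
        apply bw_congr
        intro r hr
        rw [mem_lab] at hr
        rcases hr with rfl | ⟨i, hi, rfl⟩
        · rw [if_pos rfl, hα']
          apply List.filter_congr
          intro c hc
          have := hB 0 h0R c hc
          rw [hp, Bool.eq_iff_iff, decide_eq_true_iff, decide_eq_true_iff]
          constructor
          · intro h
            exact ⟨h.1, h.2.1⟩
          · intro h
            exact ⟨h.1, h.2, by omega, by omega⟩
        · rw [if_neg (by omega)]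
          have h2 := hpl i ((hmp i).2 (Or.inr (Or.inr hi)))
          rw [if_neg (by
            rintro (rfl | rfl)
            · exact hs1 hi
            · exact hs2 hi)] at h2
          have h3 : (B (i + 1)).filter p =
              ((B (i + 1)).filter (fun a => decide (a ≠ x))).filter p := by
            rw [List.filter_filter]
            apply List.filter_congr
            intro c _
            rw [hp, Bool.eq_iff_iff, Bool.and_eq_true, decide_eq_true_iff, decide_eq_true_iff]
            tauto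
          show (B (i + 1)).filter p = [3 * i + 1]
          rw [h3, h2, List.filter_cons_of_pos, List.filter_nil]
          rw [hp, decide_eq_true_iff]
          exact ⟨by omega, by omega, by omega, by omega⟩
      rw [e1, e2] at h1
      exact h1
    · have h2 := hpl s1 ((hmp s1).2 (Or.inl rfl))
      rw [if_pos (Or.inl rfl), List.filter_eq_nil_iff] at h2
      rw [List.filter_eq_nil_iff]
      intro c hc h3
      apply h2 c hc
      rw [hp, decide_eq_true_iff] at h3
      rw [decide_eq_true_iff]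
      exact h3.1
    · have h2 := hpl s2 ((hmp s2).2 (Or.inr (Or.inl rfl)))
      rw [if_pos (Or.inr rfl), List.filter_eq_nil_iff] at h2
      rw [List.filter_eq_nil_iff]
      intro c hc h3
      apply h2 c hc
      rw [hp, decide_eq_true_iff] at h3
      rw [decide_eq_true_iff]
      exact h3.1
    · show [kx x s1 s2 s1].filter p = []
      unfold kx
      rw [if_pos (Or.inl rfl), List.filter_cons_of_neg (by rw [hp]; simp), List.filter_nil]
    · show [kx x s1 s2 s2].filter p = []
      unfold kx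
      rw [if_pos (Or.inr rfl), List.filter_cons_of_neg (by rw [hp]; simp), List.filter_nil]
  obtain ⟨⟨e0, he0, l1, hl1⟩, f, hf, l2, hl2⟩ := hERD β n x y s1 s2 P1 P2 P3 Q α hE α' hperm hproj
  have hR' : R = (P1 ++ s1 :: (P2 ++ s2 :: P3)).map (fun e => e + 1) ++
      0 :: Q.map (fun e => e + 1) := hR
  have snil : SFr [] := fun c hc => absurd hc (by simp)
  have hr2 : RR β (Bw R (DL x s1 s2 L) ++ []) (Bw R B ++ []) := by
    rw [List.append_nil, List.append_nil]
    exact hr'
  have he1 : e0 ∈ (P1 ++ (P2 ++ P3)) ++ Q := List.mem_append_right _ he0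
  have hf1 : f ∈ (P1 ++ (P2 ++ P3)) ++ Q := List.mem_append_left _ hf
  rw [← hR, ← hL] at dy
  rw [← hR] at ky
  have hFA : FA y (3 * e0 + 1) (B 0) := by
    have hz' := hz e0 he1
    rw [← hR, ← hL] at hz'
    obtain ⟨A, C, hAC⟩ := List.append_of_mem (List.mem_map_of_mem (f := fun e => e + 1) he0)
    refine (hRGD β hE.hc.s2 hE.hc.nad R (DL x s1 s2 L) B [] [] hnd hsf hB snil snil hr2 y
      (3 * e0 + 1) 0 (e0 + 1) (by omega) (by omega) (by omega)
      ⟨_, A, C, by rw [hR', hAC]⟩ dy ky hz'.1 hz'.2 rfl rfl rfl rfl).1 ?_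
    refine ⟨[], α ++ T, ?_, by simp⟩
    show L = [] ++ y :: (α ++ T)
    rw [hL]
    rfl
  have hLA : ¬ LA y (3 * f + 1) (B 0) := by
    have hz' := hz f hf1
    rw [← hR, ← hL] at hz'
    have hf2 : f ∈ P1 ++ s1 :: (P2 ++ s2 :: P3) := by
      rw [List.mem_append, List.mem_append] at hf
      rw [List.mem_append, List.mem_cons, List.mem_append, List.mem_cons]
      tauto
    obtain ⟨A, C, hAC⟩ := List.append_of_mem (List.mem_map_of_mem (f := fun e => e + 1) hf2)
    intro h
    have h1 := (hRGA β hE.hc.s2 hE.hc.na R (DL x s1 s2 L) B [] [] hnd hsf hB snil snil hr2 y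
      (3 * f + 1) 0 (f + 1) (by omega) (by omega) (by omega)
      ⟨A, C, _, by rw [hR', hAC, List.append_assoc, List.cons_append]⟩ dy ky hz'.1 hz'.2
      rfl rfl rfl rfl).2 h
    obtain ⟨A1, C1, h2, h3⟩ := h1
    have h2 : L = A1 ++ (3 * f + 1) :: C1 := h2
    have h4 : 3 * f + 1 ∈ α := by
      rw [← List.count_pos_iff, hE.can.pl f hf1]
      exact Nat.one_pos
    obtain ⟨a1, a2, ha⟩ := List.append_of_mem h4
    have h5 : (y :: a1) ++ (3 * f + 1) :: (a2 ++ T) = A1 ++ (3 * f + 1) :: C1 := by
      rw [← h2, hL, ha]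
      simp
    have h6 := hE.can.pl f hf1
    rw [ha, List.count_append, List.count_cons_self] at h6
    have h7 : 3 * f + 1 ∉ y :: a1 := by
      rw [List.mem_cons, not_or]
      exact ⟨by omega, by rw [← List.count_eq_zero]; omega⟩
    have h8 : 3 * f + 1 ∉ a2 ++ T := by
      rw [List.mem_append, not_or]
      refine ⟨by rw [← List.count_eq_zero]; omega, ?_⟩
      rcases hT with rfl | rfl
      · simp only [List.mem_cons, List.not_mem_nil, or_false]
        omega
      · simp only [List.mem_cons, List.not_mem_nil, or_false]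
        omega
    have h9 := ((List.append_cons_inj_of_notMem h7 h8).1 h5).2.2
    apply h3
    rw [← h9, List.mem_append]
    right
    rcases hT with rfl | rfl <;> simp
  have hbc : α'.count (3 * f + 1) = 1 := by
    rw [List.perm_iff_count.1 hperm]
    exact hE.can.pl f hf1
  obtain ⟨u, v, huv, hu, hv, huv'⟩ := shape hx0 hy2 hxy hα'.symm ⟨l1, hl1⟩ ⟨l2, hl2⟩ hbc hFA hLA
  refine ⟨α', u, v, hperm, hproj, huv, hu, hv, huv', ?_⟩
  -- gathering and insertion
  obtain ⟨R', hRR⟩ : ∃ R', R' = (P1 ++ s1 :: (P2 ++ s2 :: P3)).map (fun e => e + 1) := ⟨_, rfl⟩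
  obtain ⟨Qm, hQm⟩ : ∃ Qm, Qm = Q.map (fun e => e + 1) := ⟨_, rfl⟩
  rw [← hRR, ← hQm] at hR'
  have hR'R : ∀ r ∈ R', r ∈ R := by
    intro r hr
    rw [hR']
    exact List.mem_append_left _ hr
  have hQR : ∀ r ∈ Qm, r ∈ R ∧ r ∉ R' := by
    intro r hr
    rw [hR']
    refine ⟨List.mem_append_right _ (List.mem_cons_of_mem _ hr), ?_⟩
    rw [hR', List.nodup_append] at hnd
    intro h
    exact hnd.2.2 r h r (List.mem_cons_of_mem _ hr) rfl
  have hR'1 : ∀ r ∈ R', ∃ i ∈ P1 ++ s1 :: (P2 ++ s2 :: P3), r = i + 1 := by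
    intro r hr
    rw [hRR, List.mem_map] at hr
    obtain ⟨i, hi, rfl⟩ := hr
    exact ⟨i, hi, rfl⟩
  have hQ1 : ∀ r ∈ Qm, ∃ i ∈ Q, r = i + 1 := by
    intro r hr
    rw [hQm, List.mem_map] at hr
    obtain ⟨i, hi, rfl⟩ := hr
    exact ⟨i, hi, rfl⟩
  have hspl : ∀ C : ℕ → List ℕ, Bw R C = Bw R' C ++ (C 0 ++ (3 * 0 + 2) :: Bw Qm C) := by
    intro C
    rw [hR', bw_split]
  obtain ⟨U, V, hUV, hg⟩ := hCTG β hE.hc.s2 R' B (B 0 ++ (3 * 0 + 2) :: Bw Qm B) x
    (by
      rw [hR', List.nodup_append] at hnd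
      exact hnd.1) (by omega) (by
    intro r hr a ha hax
    obtain ⟨i, hi, rfl⟩ := hR'1 r hr
    have hi' : i ∈ (P1 ++ s1 :: (P2 ++ s2 :: P3)) ++ Q := List.mem_append_left _ hi
    have h1 := hpl i hi'
    have h2 : a ∈ (B (i + 1)).filter (fun a => decide (a ≠ x)) := by
      rw [List.mem_filter, decide_eq_true_iff]
      exact ⟨ha, hax⟩
    rw [h1] at h2
    split_ifs at h2 with h3
    · simp at h2
    · rw [List.mem_singleton] at h2
      subst h2
      have h4 : i ∈ (P1 ++ (P2 ++ P3)) ++ Q := by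
        rw [hmp] at hi'
        tauto
      have h5 := (hz i h4).2 0 (by rw [← hR]; exact h0R)
      rw [if_pos (Or.inr rfl)] at h5
      have h6 : 0 < (Bw R' B).count (3 * i + 1) :=
        List.count_pos_iff.2 (mem_bw.2 ⟨_, hr, Or.inl ha⟩)
      rw [List.count_append, List.count_append]
      omega) (by
    intro r hr
    left
    obtain ⟨i, hi, rfl⟩ := hR'1 r hr
    rw [hpl i (List.mem_append_left _ hi)]
    split_ifs <;> simp)
  rw [← hspl] at hg
  obtain ⟨p2, hp2⟩ : ∃ p2 : ℕ → Bool, p2 = fun c => decide (c = x ∨ c % 3 = 2) := ⟨_, rfl⟩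
  have hp2s : ∀ r ∈ R, p2 (3 * r + 2) = true := by
    intro r _
    rw [hp2, decide_eq_true_iff]
    omega
  have hf2 := hr'.filter p2
  rw [bw_filt p2 _ R hp2s, bw_filt p2 _ R hp2s] at hf2
  have sff : ∀ l : List ℕ, SFr l → SFr (l.filter p2) := fun l hl c hc =>
    hl c (List.mem_of_mem_filter hc)
  have hfx : ∀ l : List ℕ, SFr l → l.filter p2 = List.replicate (l.count x) x := by
    intro l hl
    rw [hp2]
    exact filt_x hl x
  have hir := hIRL β R (fun r => (DL x s1 s2 L r).filter p2) (fun r => (B r).filter p2)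
    (fun r => if r = 0 then u else if r ∈ R' then U r else [3 * (r - 1) + 1])
    (fun r => if r = 0 then v else if r ∈ R' then V r else []) [] [] [] [] hnd
    (fun r hr => sff _ (hsf r hr)) (fun r hr => sff _ (hB r hr)) snil snil (by
      rw [List.append_nil, List.append_nil]
      exact hf2)
  simp only [List.append_nil] at hir
  have g1 : Bw R (fun r => (if r = 0 then u else if r ∈ R' then U r else [3 * (r - 1) + 1]) ++
      ((DL x s1 s2 L r).filter p2 ++ (if r = 0 then v else if r ∈ R' then V r else []))) =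
      EW x s1 s2 P1 P2 P3 Q (u ++ x :: v) := by
    rw [ew_eq, ← hR]
    apply bw_congr
    intro r hr
    show (if r = 0 then u else if r ∈ R' then U r else [3 * (r - 1) + 1]) ++
      ((DL x s1 s2 L r).filter p2 ++ (if r = 0 then v else if r ∈ R' then V r else [])) = _
    by_cases h0 : r = 0
    · subst h0
      rw [if_pos rfl, if_pos rfl]
      show u ++ (L.filter p2 ++ v) = u ++ x :: v
      have : L.filter p2 = [x] := by
        rw [hfx L hsfL, hL, List.count_cons_of_ne (fun h => hxy h.symm), List.count_append,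
          List.count_eq_zero.2 hxα]
        have : T.count x = 1 := by
          rcases hT with rfl | rfl
          · rw [List.count_cons_self, List.count_cons_of_ne (fun h => hxy h.symm)]
            rfl
          · rw [List.count_cons_of_ne (fun h => hxy h.symm), List.count_cons_self]
            rfl
        rw [this]
        rfl
      rw [this]
      rfl
    · rw [if_neg h0, if_neg h0]
      have hD : ∀ M : List ℕ, DL x s1 s2 M r = [kx x s1 s2 (r - 1)] := fun M => if_neg h0
      rw [hD, hD]
      by_cases hrR : r ∈ R'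
      · rw [if_pos hrR, if_pos hrR]
        obtain ⟨i, hi, rfl⟩ := hR'1 r hrR
        have h1 := hUV _ hrR
        rw [hpl i (List.mem_append_left _ hi)] at h1
        rw [Nat.add_sub_cancel]
        unfold kx
        by_cases h2 : i = s1 ∨ i = s2
        · rw [if_pos h2] at h1
          rw [if_pos h2, List.filter_cons_of_pos (by rw [hp2]; simp), List.filter_nil]
          rw [List.append_eq_nil_iff] at h1
          rw [h1.1, h1.2]
          rfl
        · rw [if_neg h2] at h1
          rw [if_neg h2, List.filter_cons_of_neg (by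
            rw [hp2, decide_eq_true_iff]
            omega), List.filter_nil, List.nil_append]
          exact h1
      · rw [if_neg hrR, if_neg hrR]
        have hrQ : r ∈ Qm := by
          rw [hR', List.mem_append, List.mem_cons] at hr
          tauto
        obtain ⟨i, hi, rfl⟩ := hQ1 r hrQ
        rw [Nat.add_sub_cancel]
        have hi' : i ∈ (P1 ++ (P2 ++ P3)) ++ Q := List.mem_append_right _ hi
        unfold kx
        rw [if_neg (by
          rintro (rfl | rfl)
          · exact hs1 hi'
          · exact hs2 hi'), List.filter_cons_of_neg (by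
            rw [hp2, decide_eq_true_iff]
            omega)]
        rfl
  have g2 : Bw R (fun r => (if r = 0 then u else if r ∈ R' then U r else [3 * (r - 1) + 1]) ++
      ((B r).filter p2 ++ (if r = 0 then v else if r ∈ R' then V r else []))) =
      Bw R' (fun r => U r ++ (List.replicate ((B r).count x) x ++ V r)) ++
        (B 0 ++ (3 * 0 + 2) :: Bw Qm B) := by
    rw [hspl]
    congr 1
    · apply bw_congr
      intro r hr
      show (if r = 0 then u else if r ∈ R' then U r else [3 * (r - 1) + 1]) ++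
        ((B r).filter p2 ++ (if r = 0 then v else if r ∈ R' then V r else [])) = _
      have h0 : r ≠ 0 := by
        obtain ⟨i, hi, rfl⟩ := hR'1 r hr
        omega
      rw [if_neg h0, if_neg h0, if_pos hr, if_pos hr, hfx _ (hB r (hR'R r hr))]
    · congr 1
      · show (if (0 : ℕ) = 0 then u else if 0 ∈ R' then U 0 else [3 * (0 - 1) + 1]) ++
          ((B 0).filter p2 ++ (if (0 : ℕ) = 0 then v else if 0 ∈ R' then V 0 else [])) = _
        rw [if_pos rfl, if_pos rfl, hfx _ (hB 0 h0R), hx0, huv]
        rfl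
      · congr 1
        apply bw_congr
        intro r hr
        show (if r = 0 then u else if r ∈ R' then U r else [3 * (r - 1) + 1]) ++
          ((B r).filter p2 ++ (if r = 0 then v else if r ∈ R' then V r else [])) = _
        obtain ⟨i, hi, rfl⟩ := hQ1 r hr
        have hi' : i ∈ (P1 ++ (P2 ++ P3)) ++ Q := List.mem_append_right _ hi
        have h1 : (B (i + 1)).count x = 0 := by
          apply hx1
          rw [List.mem_append]
          right
          rw [← hQm]
          exact hr
        have h2 := hpl i ((hmp i).2 (Or.inr (Or.inr hi')))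
        rw [if_neg (by
          rintro (rfl | rfl)
          · exact hs1 hi'
          · exact hs2 hi')] at h2
        have h3 : (B (i + 1)).filter (fun a => decide (a ≠ x)) = B (i + 1) := by
          rw [List.filter_eq_self]
          intro c hc
          rw [decide_eq_true_iff]
          intro h
          rw [List.count_eq_zero] at h1
          exact h1 (h ▸ hc)
        have h4 : i + 1 ≠ 0 := by omega
        rw [if_neg h4, if_neg h4, if_neg (hQR _ hr).2, if_neg (hQR _ hr).2,
          hfx _ (hB _ (hQR _ hr).1), h1, ← h3, h2]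
        rfl
  rw [g1, g2] at hir
  have hfin : RR β (EW x s1 s2 P1 P2 P3 Q L) (EW x s1 s2 P1 P2 P3 Q (u ++ x :: v)) := by
    have e1 : RR β (EW x s1 s2 P1 P2 P3 Q L) (Bw R B) := by
      rw [ew_eq, ← hR]
      exact hr'
    exact β.trans e1 (β.trans hg (RR.symm hir))
  rw [hL] at hfin
  exact hfin

end Pool.Agent.MVD.H35
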